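import Pool.Agent.Lib.MP_478c11_gt.MAN
import Pool.Agent.Lib.MP_478c11_gt.RMP
import Pool.Agent.Lib.MP_478c11_gt.U.Spec

section
set_option autoImplicit false

/-!
MP_478c11_gt (helper9): the isolated form of the rim theorem, part 1: pairs of isometric strips, the rim equations of the second strip.
-/

open Real MeasureTheory Set Filter Topology
open scoped ContDiff InnerProductSpace

namespace Rim478

theorem hDRV : SpecDRV := specDRV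
theorem hCRS : SpecCRS := specCRS
theorem hGAU : SpecGAU := specGAU hDRV hCRS
theorem hMOV : SpecMOV := specMOV hGAU hCRS hDRV
theorem hWND : SpecWND := specWND hCRS
theorem hRMP : SpecRMP := specRMP (specQFM specWIR)
theorem hOPN : SpecOPN := specOPN hGAU hWND hRMP hCRS hDRV
theorem hJET : SpecJET := specJET hDRV hCRS

/-- smooth on the plane -/
def S2 {V : Type} [NormedAddCommGroup V] [NormedSpace ℝ V] (G : ℝ → ℝ → V) : Prop :=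
  ContDiff ℝ ∞ (fun p : ℝ × ℝ => G p.1 p.2)

/-- `X` is a strip with a rim at `t = 0` -/
structure Rim (X : ℝ → ℝ → E3) (R : ℝ → ℝ) (u₁ u₂ : E3) : Prop where
  sm : S2 X
  per : ∀ t θ, X t (θ + 2 * π) = X t θ
  h1 : ‖u₁‖ = 1
  h2 : ‖u₂‖ = 1
  h12 : ⟪u₁, u₂⟫_ℝ = 0
  Rpos : ∀ θ, 0 < R θ
  tan : ∀ θ, ph X 0 θ = R θ • (cos θ • u₁ + sin θ • u₂)
  nor : ∀ θ, pt X 0 θ = -sin θ • u₁ + cos θ • u₂
  nd : ∀ θ, ⟪pt (pt X) 0 θ, cr u₁ u₂⟫_ℝ ≠ 0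

/-- `Y` is isometric to `X` -/
structure Iso (X Y : ℝ → ℝ → E3) : Prop where
  sm : S2 Y
  per : ∀ t θ, Y t (θ + 2 * π) = Y t θ
  gE : ∀ t θ, ⟪ph Y t θ, ph Y t θ⟫_ℝ = ⟪ph X t θ, ph X t θ⟫_ℝ
  gF : ∀ t θ, ⟪pt Y t θ, ph Y t θ⟫_ℝ = ⟪pt X t θ, ph X t θ⟫_ℝ
  gG : ∀ t θ, ⟪pt Y t θ, pt Y t θ⟫_ℝ = ⟪pt X t θ, pt X t θ⟫_ℝ

namespace PAIM

/-- constant family -/
def K3 {V : Type} (Y : ℝ → ℝ → V) : ℝ → ℝ → ℝ → V := fun _ t θ => Y t θ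

section
variable {V : Type} [NormedAddCommGroup V] [NormedSpace ℝ V]

lemma K3_sm {Y : ℝ → ℝ → V} (h : S2 Y) : Sm (K3 Y) :=
  ContDiff.comp (g := fun p : ℝ × ℝ => Y p.1 p.2) (f := fun p : ℝ × ℝ × ℝ => p.2) h contDiff_snd

lemma S2_of_K3 {Y : ℝ → ℝ → V} (h : Sm (K3 Y)) : S2 Y :=
  ContDiff.comp (g := fun p : ℝ × ℝ × ℝ => K3 Y p.1 p.2.1 p.2.2) (f := fun p : ℝ × ℝ => ((0, p) : ℝ × ℝ × ℝ)) h
    (contDiff_const.prodMk contDiff_id)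

lemma dt_K3 (Y : ℝ → ℝ → V) : dt (K3 Y) = K3 (pt Y) := rfl

lemma dh_K3 (Y : ℝ → ℝ → V) : dh (K3 Y) = K3 (ph Y) := rfl

lemma S2_pt {Y : ℝ → ℝ → V} (h : S2 Y) : S2 (pt Y) := S2_of_K3 (hDRV.sdt (K3_sm h))

lemma S2_ph {Y : ℝ → ℝ → V} (h : S2 Y) : S2 (ph Y) := S2_of_K3 (hDRV.sdh (K3_sm h))

lemma h_pt {Y : ℝ → ℝ → V} (h : S2 Y) (t θ : ℝ) : HasDerivAt (fun s => Y s θ) (pt Y t θ) t :=
  hDRV.hdt (K3_sm h) 0 t θ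

lemma h_ph {Y : ℝ → ℝ → V} (h : S2 Y) (t θ : ℝ) : HasDerivAt (fun s => Y t s) (ph Y t θ) θ :=
  hDRV.hdh (K3_sm h) 0 t θ

lemma pt_ph {Y : ℝ → ℝ → V} (h : S2 Y) : pt (ph Y) = ph (pt Y) := by
  have := hDRV.comm (K3_sm h)
  have h2 := congrFun this 0
  exact h2

lemma dt_it (Y : ℝ → ℝ → V) (k : ℕ) : dt^[k] (K3 Y) = K3 (pt^[k] Y) := by
  induction k with
  | zero => rfl
  | succ n ih => rw [Function.iterate_succ_apply', ih, Function.iterate_succ_apply', dt_K3]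

end

section
variable {X Y : ℝ → ℝ → E3} {R : ℝ → ℝ} {u₁ u₂ : E3} (F : Rim X R u₁ u₂)
include F

/-- the base as a constant family -/
lemma fam : Fam (K3 X) R u₁ u₂ (cr u₁ u₂) where
  sm := K3_sm F.sm
  per := fun _ => F.per
  gE := fun _ _ _ => rfl
  gF := fun _ _ _ => rfl
  gG := fun _ _ _ => rfl
  h1 := F.h1
  h2 := F.h2
  h12 := F.h12
  he := rfl
  Rpos := F.Rpos
  tan := F.tan
  nor := F.nor
  nd := F.nd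

variable (I : Iso X Y)
include I

open GAUM

lemma mE : (fun (α t θ : ℝ) => ⟪dh (K3 Y) α t θ, dh (K3 Y) α t θ⟫_ℝ) =
    fun (α t θ : ℝ) => ⟪dh (K3 X) α t θ, dh (K3 X) α t θ⟫_ℝ := by
  funext α t θ; exact I.gE t θ

lemma mF : (fun (α t θ : ℝ) => ⟪dt (K3 Y) α t θ, dh (K3 Y) α t θ⟫_ℝ) =
    fun (α t θ : ℝ) => ⟪dt (K3 X) α t θ, dh (K3 X) α t θ⟫_ℝ := by
  funext α t θ; exact I.gF t θ

lemma mG : (fun (α t θ : ℝ) => ⟪dt (K3 Y) α t θ, dt (K3 Y) α t θ⟫_ℝ) =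
    fun (α t θ : ℝ) => ⟪dt (K3 X) α t θ, dt (K3 X) α t θ⟫_ℝ := by
  funext α t θ; exact I.gG t θ

lemma e_E (θ : ℝ) : ⟪dh (K3 Y) 0 0 θ, dh (K3 Y) 0 0 θ⟫_ℝ = R θ ^ 2 := by
  have h : ⟪dh (K3 Y) 0 0 θ, dh (K3 Y) 0 0 θ⟫_ℝ = ⟪dh (K3 X) 0 0 θ, dh (K3 X) 0 0 θ⟫_ℝ := I.gE 0 θ
  have hcs := cos_sq_add_sin_sq θ
  rw [h, (fam F).tan, inner_smul_left, inner_smul_right, uc (fam F)]
  simp only [conj_trivial]
  linear_combination (R θ ^ 2) * hcs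

lemma e_F (θ : ℝ) : ⟪dt (K3 Y) 0 0 θ, dh (K3 Y) 0 0 θ⟫_ℝ = 0 := by
  have h : ⟪dt (K3 Y) 0 0 θ, dh (K3 Y) 0 0 θ⟫_ℝ = ⟪dt (K3 X) 0 0 θ, dh (K3 X) 0 0 θ⟫_ℝ := I.gF 0 θ
  rw [h, (fam F).tan, (fam F).nor, inner_smul_right, uc (fam F)]
  ring

lemma e_G (θ : ℝ) : ⟪dt (K3 Y) 0 0 θ, dt (K3 Y) 0 0 θ⟫_ℝ = 1 := by
  have h : ⟪dt (K3 Y) 0 0 θ, dt (K3 Y) 0 0 θ⟫_ℝ = ⟪dt (K3 X) 0 0 θ, dt (K3 X) 0 0 θ⟫_ℝ := I.gG 0 θ
  have hcs := cos_sq_add_sin_sq θ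
  rw [h, (fam F).nor, uc (fam F)]
  linear_combination hcs

lemma on2 (θ : ℝ) : ‖fT (K3 Y) R 0 θ‖ = 1 ∧ ‖fU (K3 Y) 0 θ‖ = 1 ∧ ⟪fT (K3 Y) R 0 θ, fU (K3 Y) 0 θ⟫_ℝ = 0 := by
  have hR := F.Rpos θ
  have hE := e_E F I θ
  have hF := e_F F I θ
  have hG := e_G F I θ
  refine ⟨?_, ?_, ?_⟩
  · rw [fT, norm_smul, Real.norm_eq_abs, abs_of_pos (inv_pos.mpr hR)]
    rw [real_inner_self_eq_norm_sq] at hE
    have h2 : ‖dh (K3 Y) 0 0 θ‖ = R θ := (sq_eq_sq₀ (norm_nonneg _) hR.le).mp hE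
    rw [h2, inv_mul_cancel₀ hR.ne']
  · rw [real_inner_self_eq_norm_sq] at hG
    rw [fU]
    nlinarith [norm_nonneg (dt (K3 Y) 0 0 θ)]
  · rw [fT, fU, inner_smul_left, real_inner_comm, hF]
    simp

lemma T2' (θ : ℝ) : HasDerivAt (fun s => fT (K3 Y) R 0 s)
    (fU (K3 Y) 0 θ + nu (K3 Y) R 0 θ • fN (K3 Y) R 0 θ) θ := by
  have hR := F.Rpos θ
  have sY := K3_sm I.sm
  have sX := K3_sm F.sm
  obtain ⟨n1, n2, n3⟩ := on2 F I θ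
  have hRd : HasDerivAt (fun s => (R s)⁻¹) (-deriv R θ / R θ ^ 2) θ :=
    (((R_sm (fam F) hDRV).differentiable (by simp)).differentiableAt.hasDerivAt).inv hR.ne'
  have h1 := hRd.smul (hDRV.hdh (hDRV.sdh sY) 0 0 θ)
  set D := (R θ)⁻¹ • dh (dh (K3 Y)) 0 0 θ + (-deriv R θ / R θ ^ 2) • dh (K3 Y) 0 0 θ with hDdef
  have h2 : HasDerivAt (fun s => fT (K3 Y) R 0 s) D θ := h1
  have e1 : ⟪D, fT (K3 Y) R 0 θ⟫_ℝ = 0 := by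
    have h3 := h2.inner ℝ h2
    have h4 : (fun s => ⟪fT (K3 Y) R 0 s, fT (K3 Y) R 0 s⟫_ℝ) = fun _ => (1:ℝ) := by
      funext s
      rw [real_inner_self_eq_norm_sq, (on2 F I s).1]; norm_num
    rw [h4] at h3
    have h5 := h3.unique (hasDerivAt_const θ (1:ℝ))
    rw [real_inner_comm D (fT (K3 Y) R 0 θ)] at h5
    linarith
  have hF := e_F F I θ
  have e2 : ⟪D, fU (K3 Y) 0 θ⟫_ℝ = 1 := by
    have h6 : ⟪dh (dh (K3 Y)) 0 0 θ, dt (K3 Y) 0 0 θ⟫_ℝ = R θ := by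
      have h7 : ⟪dh (dh (K3 Y)) 0 0 θ, dt (K3 Y) 0 0 θ⟫_ℝ = ⟪dh (dh (K3 X)) 0 0 θ, dt (K3 X) 0 0 θ⟫_ℝ := by
        rw [m6 hDRV sY, m6 hDRV sX, mF F I, mE F I]
      rw [h7, hh0 (fam F) hDRV, (fam F).nor, inner_add_left, inner_smul_left, inner_smul_left, uc (fam F),
        uc (fam F)]
      have hcs := cos_sq_add_sin_sq θ
      simp only [conj_trivial]
      linear_combination (R θ) * hcs
    rw [hDdef, inner_add_left, inner_smul_left, inner_smul_left, fU, h6, real_inner_comm, hF]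
    simp [hR.ne']
  have e3 : ⟪D, fN (K3 Y) R 0 θ⟫_ℝ = nu (K3 Y) R 0 θ := by
    have h8 : ⟪dh (K3 Y) 0 0 θ, fN (K3 Y) R 0 θ⟫_ℝ = 0 := by
      have h9 := fNT hCRS (X := K3 Y) (R := R) 0 θ
      rw [fT, inner_smul_right, real_inner_comm] at h9
      rcases mul_eq_zero.mp h9 with h | h
      · exact absurd h (inv_ne_zero hR.ne')
      · exact h
    rw [hDdef, inner_add_left, inner_smul_left, inner_smul_left, h8, nu]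
    simp
  have e4 := hCRS.exp _ _ n1 n2 n3 D
  rw [e1, e2] at e4
  have e5 : ⟪D, cr (fT (K3 Y) R 0 θ) (fU (K3 Y) 0 θ)⟫_ℝ = nu (K3 Y) R 0 θ := e3
  rw [e5, zero_smul, zero_add, one_smul] at e4
  rw [e4] at h2
  exact h2

lemma U2' (θ : ℝ) : HasDerivAt (fun s => fU (K3 Y) 0 s)
    (-fT (K3 Y) R 0 θ + tau (K3 Y) R 0 θ • fN (K3 Y) R 0 θ) θ := by
  have hR := F.Rpos θ
  have sY := K3_sm I.sm
  have sX := K3_sm F.sm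
  obtain ⟨n1, n2, n3⟩ := on2 F I θ
  have h2 : HasDerivAt (fun s => fU (K3 Y) 0 s) (dh (dt (K3 Y)) 0 0 θ) θ := hDRV.hdh (hDRV.sdt sY) 0 0 θ
  have e2 : ⟪dh (dt (K3 Y)) 0 0 θ, fU (K3 Y) 0 θ⟫_ℝ = 0 := by
    have h3 := h2.inner ℝ h2
    have h4 : (fun s => ⟪fU (K3 Y) 0 s, fU (K3 Y) 0 s⟫_ℝ) = fun _ => (1:ℝ) := by
      funext s
      rw [real_inner_self_eq_norm_sq, (on2 F I s).2.1]; norm_num
    rw [h4] at h3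
    have h5 := h3.unique (hasDerivAt_const θ (1:ℝ))
    rw [real_inner_comm (dh (dt (K3 Y)) 0 0 θ) (fU (K3 Y) 0 θ)] at h5
    linarith
  have e1 : ⟪dh (dt (K3 Y)) 0 0 θ, fT (K3 Y) R 0 θ⟫_ℝ = -1 := by
    have h6 : ⟪dh (dt (K3 Y)) 0 0 θ, dh (K3 Y) 0 0 θ⟫_ℝ = -R θ := by
      have h7 : ⟪dh (dt (K3 Y)) 0 0 θ, dh (K3 Y) 0 0 θ⟫_ℝ = ⟪dh (dt (K3 X)) 0 0 θ, dh (K3 X) 0 0 θ⟫_ℝ := by
        rw [m2 hDRV sY, m2 hDRV sX, mE F I]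
      rw [h7, th0 (fam F) hDRV, (fam F).tan, inner_smul_right, uc (fam F)]
      have hcs := cos_sq_add_sin_sq θ
      linear_combination (-R θ) * hcs
    rw [fT, inner_smul_right, h6]
    field_simp
  have e4 := hCRS.exp _ _ n1 n2 n3 (dh (dt (K3 Y)) 0 0 θ)
  have e5 : ⟪dh (dt (K3 Y)) 0 0 θ, cr (fT (K3 Y) R 0 θ) (fU (K3 Y) 0 θ)⟫_ℝ = tau (K3 Y) R 0 θ := rfl
  rw [e1, e2, e5, zero_smul, add_zero, neg_one_smul] at e4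
  rw [e4] at h2
  exact h2

lemma Kr (θ : ℝ) : R θ * nu (K3 Y) R 0 θ * ell (K3 Y) R 0 θ = tau (K3 Y) R 0 θ ^ 2 := by
  have hR := F.Rpos θ
  have sY := K3_sm I.sm
  have sX := K3_sm F.sm
  obtain ⟨n1, n2, n3⟩ := on2 F I θ
  obtain ⟨k1, k2, k3⟩ := on (fam F) 0 θ
  have a1 : ⟪dh (dh (K3 Y)) 0 0 θ, fT (K3 Y) R 0 θ⟫_ℝ = ⟪dh (dh (K3 X)) 0 0 θ, fT (K3 X) R 0 θ⟫_ℝ := by
    rw [fT, fT, inner_smul_right, inner_smul_right, m1 hDRV sY, m1 hDRV sX, mE F I]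
  have a2 : ⟪dh (dh (K3 Y)) 0 0 θ, fU (K3 Y) 0 θ⟫_ℝ = ⟪dh (dh (K3 X)) 0 0 θ, fU (K3 X) 0 θ⟫_ℝ := by
    rw [fU, fU, m6 hDRV sY, m6 hDRV sX, mF F I, mE F I]
  have b1 : ⟪dt (dt (K3 Y)) 0 0 θ, fT (K3 Y) R 0 θ⟫_ℝ = ⟪dt (dt (K3 X)) 0 0 θ, fT (K3 X) R 0 θ⟫_ℝ := by
    rw [fT, fT, inner_smul_right, inner_smul_right, m5 hDRV sY, m5 hDRV sX, mF F I, mG F I]
  have b2 : ⟪dt (dt (K3 Y)) 0 0 θ, fU (K3 Y) 0 θ⟫_ℝ = ⟪dt (dt (K3 X)) 0 0 θ, fU (K3 X) 0 θ⟫_ℝ := by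
    rw [fU, fU, m3 hDRV sY, m3 hDRV sX, mG F I]
  have c1 : ⟪dh (dt (K3 Y)) 0 0 θ, fT (K3 Y) R 0 θ⟫_ℝ = ⟪dh (dt (K3 X)) 0 0 θ, fT (K3 X) R 0 θ⟫_ℝ := by
    rw [fT, fT, inner_smul_right, inner_smul_right, m2 hDRV sY, m2 hDRV sX, mE F I]
  have c2 : ⟪dh (dt (K3 Y)) 0 0 θ, fU (K3 Y) 0 θ⟫_ℝ = ⟪dh (dt (K3 X)) 0 0 θ, fU (K3 X) 0 θ⟫_ℝ := by
    rw [fU, fU, m4 hDRV sY, m4 hDRV sX, mG F I]
  have g : ⟪dt (dt (K3 Y)) 0 0 θ, dh (dh (K3 Y)) 0 0 θ⟫_ℝ - ⟪dh (dt (K3 Y)) 0 0 θ, dh (dt (K3 Y)) 0 0 θ⟫_ℝ =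
      ⟪dt (dt (K3 X)) 0 0 θ, dh (dh (K3 X)) 0 0 θ⟫_ℝ - ⟪dh (dt (K3 X)) 0 0 θ, dh (dt (K3 X)) 0 0 θ⟫_ℝ := by
    rw [m7 hDRV sY, m7 hDRV sX, mE F I, mF F I, mG F I]
  rw [par2 hCRS n1 n2 n3 (dt (dt (K3 Y)) 0 0 θ) (dh (dh (K3 Y)) 0 0 θ),
    par2 hCRS n1 n2 n3 (dh (dt (K3 Y)) 0 0 θ) (dh (dt (K3 Y)) 0 0 θ),
    par2 hCRS k1 k2 k3 (dt (dt (K3 X)) 0 0 θ) (dh (dh (K3 X)) 0 0 θ),
    par2 hCRS k1 k2 k3 (dh (dt (K3 X)) 0 0 θ) (dh (dt (K3 X)) 0 0 θ), a1, a2, b1, b2, c1, c2] at g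
  have z1 : ⟪dh (dt (K3 X)) 0 0 θ, cr (fT (K3 X) R 0 θ) (fU (K3 X) 0 θ)⟫_ℝ = 0 := tau0 (fam F) hDRV hCRS θ
  have z2 : ⟪dh (dh (K3 X)) 0 0 θ, cr (fT (K3 X) R 0 θ) (fU (K3 X) 0 θ)⟫_ℝ = 0 := hhN0 (fam F) hDRV hCRS θ
  rw [z1, z2] at g
  have t1 : ⟪dh (dt (K3 Y)) 0 0 θ, cr (fT (K3 Y) R 0 θ) (fU (K3 Y) 0 θ)⟫_ℝ = tau (K3 Y) R 0 θ := rfl
  have t2 : ⟪dt (dt (K3 Y)) 0 0 θ, cr (fT (K3 Y) R 0 θ) (fU (K3 Y) 0 θ)⟫_ℝ = ell (K3 Y) R 0 θ := rfl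
  have t3 : ⟪dh (dh (K3 Y)) 0 0 θ, cr (fT (K3 Y) R 0 θ) (fU (K3 Y) 0 θ)⟫_ℝ = R θ * nu (K3 Y) R 0 θ := by
    rw [nu, ← mul_assoc, mul_inv_cancel₀ hR.ne', one_mul, fN]
  rw [t1, t2, t3] at g
  linear_combination g

end

end PAIM

end Rim478
end

section
set_option autoImplicit false

/-!
MP_478c11_gt (helper9): the isolated form of the rim theorem, part 2: a sequence of isometric strips converging along the rim.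
-/

open Real MeasureTheory Set Filter Topology
open scoped ContDiff InnerProductSpace

namespace Rim478

namespace SEQM

open OPNM PAIM

/-- continuous convergence -/
def CC {V : Type} [TopologicalSpace V] (Z : ℕ → ℝ → V) (Z₀ : ℝ → V) : Prop :=
  ∀ θ, Tendsto (fun p : ℕ × ℝ => Z p.1 p.2) (atTop ×ˢ 𝓝 θ) (𝓝 (Z₀ θ))

lemma unifS {Y : Type} [TopologicalSpace Y] {G : ℕ → ℝ → Y} {G₀ : ℝ → Y} {O : Set Y} (hO : IsOpen O)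
    (hG : CC G G₀) (h0 : ∀ θ, G₀ θ ∈ O) (hper : ∀ n θ, G n (θ + 2 * π) = G n θ) :
    ∀ᶠ n in atTop, ∀ θ, G n θ ∈ O := by
  have h1 : ∀ᶠ n in atTop, ∀ θ ∈ Icc (0:ℝ) (2 * π), G n θ ∈ O := by
    refine isCompact_Icc.induction_on (p := fun S => ∀ᶠ n in atTop, ∀ θ ∈ S, G n θ ∈ O) ?_ ?_ ?_ ?_
    · simp
    · intro s t hst ht
      filter_upwards [ht] with n hn θ hθ
      exact hn θ (hst hθ)
    · intro s t hs ht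
      filter_upwards [hs, ht] with n h1 h2 θ hθ
      rcases hθ with h | h
      · exact h1 θ h
      · exact h2 θ h
    · intro θ _
      have h2 := (hG θ).eventually (hO.mem_nhds (h0 θ))
      rw [eventually_prod_iff] at h2
      obtain ⟨pa, ha, pb, hb, hab⟩ := h2
      refine ⟨{x | pb x}, mem_nhdsWithin_of_mem_nhds hb, ?_⟩
      filter_upwards [ha] with n hn x hx
      exact hab hn hx
  filter_upwards [h1] with n hn θ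
  have hp : Function.Periodic (G n) (2 * π) := hper n
  obtain ⟨y, hy, hy2⟩ := hp.exists_mem_Ico₀ two_pi_pos θ
  rw [hy2]
  exact hn y ⟨hy.1, hy.2.le⟩

section
variable {V : Type} [NormedAddCommGroup V] [NormedSpace ℝ V]

lemma CC_of {Z : ℕ → ℝ → V} {Z₀ : ℝ → V} (hc : Continuous Z₀)
    (h : ∀ n θ, ‖Z n θ - Z₀ θ‖ ≤ 1 / ((n:ℝ) + 1)) : CC Z Z₀ := by
  intro θ
  have h1 : Tendsto (fun p : ℕ × ℝ => Z p.1 p.2 - Z₀ p.2) (atTop ×ˢ 𝓝 θ) (𝓝 0) := by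
    refine squeeze_zero_norm (a := fun p : ℕ × ℝ => 1 / ((p.1:ℝ) + 1)) (fun p => h p.1 p.2) ?_
    exact (tendsto_one_div_add_atTop_nhds_zero_nat (𝕜 := ℝ)).comp tendsto_fst
  have h2 : Tendsto (fun p : ℕ × ℝ => Z₀ p.2) (atTop ×ˢ 𝓝 θ) (𝓝 (Z₀ θ)) :=
    (hc.tendsto θ).comp tendsto_snd
  have h3 := h1.add h2
  simpa using h3

lemma CC_fix {g : ℝ → V} (hg : Continuous g) : CC (fun _ => g) g := fun θ => (hg.tendsto θ).comp tendsto_snd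

lemma CC_seq {v : ℕ → V} {w : V} (h : Tendsto v atTop (𝓝 w)) : CC (fun n _ => v n) (fun _ => w) :=
  fun _ => h.comp tendsto_fst

lemma CC.smul {Z : ℕ → ℝ → V} {Z₀ : ℝ → V} {a : ℕ → ℝ → ℝ} {a₀ : ℝ → ℝ} (ha : CC a a₀) (h : CC Z Z₀) :
    CC (fun n θ => a n θ • Z n θ) (fun θ => a₀ θ • Z₀ θ) := fun θ => (ha θ).smul (h θ)

end

lemma CC.inner {Z W : ℕ → ℝ → E3} {Z₀ W₀ : ℝ → E3} (h : CC Z Z₀) (k : CC W W₀) :
    CC (fun n θ => ⟪Z n θ, W n θ⟫_ℝ) (fun θ => ⟪Z₀ θ, W₀ θ⟫_ℝ) := fun θ => (h θ).inner (k θ)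

lemma CC.cr {Z W : ℕ → ℝ → E3} {Z₀ W₀ : ℝ → E3} (h : CC Z Z₀) (k : CC W W₀) :
    CC (fun n θ => cr (Z n θ) (W n θ)) (fun θ => cr (Z₀ θ) (W₀ θ)) := fun θ =>
  (hCRS.sm.continuous.tendsto (Z₀ θ, W₀ θ)).comp ((h θ).prodMk_nhds (k θ))

lemma CC.mul {a b : ℕ → ℝ → ℝ} {a₀ b₀ : ℝ → ℝ} (ha : CC a a₀) (hb : CC b b₀) :
    CC (fun n θ => a n θ * b n θ) (fun θ => a₀ θ * b₀ θ) := fun θ => (ha θ).mul (hb θ)

lemma CC.sub {a b : ℕ → ℝ → ℝ} {a₀ b₀ : ℝ → ℝ} (ha : CC a a₀) (hb : CC b b₀) :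
    CC (fun n θ => a n θ - b n θ) (fun θ => a₀ θ - b₀ θ) := fun θ => (ha θ).sub (hb θ)

lemma CC.abs {a : ℕ → ℝ → ℝ} {a₀ : ℝ → ℝ} (ha : CC a a₀) :
    CC (fun n θ => |a n θ|) (fun θ => |a₀ θ|) := fun θ => (ha θ).abs

lemma CC.div {a b : ℕ → ℝ → ℝ} {a₀ b₀ : ℝ → ℝ} (ha : CC a a₀) (hb : CC b b₀) (h : ∀ θ, b₀ θ ≠ 0) :
    CC (fun n θ => a n θ / b n θ) (fun θ => a₀ θ / b₀ θ) := fun θ => (ha θ).div (hb θ) (h θ)

lemma tend_cr {v w : ℕ → E3} {a b : E3} (hv : Tendsto v atTop (𝓝 a)) (hw : Tendsto w atTop (𝓝 b)) :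
    Tendsto (fun n => Rim478.cr (v n) (w n)) atTop (𝓝 (Rim478.cr a b)) :=
  (hCRS.sm.continuous.tendsto (a, b)).comp (hv.prodMk_nhds hw)

/-- integrals converge -/
lemma int_conv {Z : ℕ → ℝ → E3} {Z₀ : ℝ → E3} (h : CC Z Z₀) (hZ : ∀ n, Continuous (Z n)) (hZ₀ : Continuous Z₀)
    (p : ∀ n θ, Z n (θ + 2 * π) = Z n θ) (p₀ : ∀ θ, Z₀ (θ + 2 * π) = Z₀ θ) :
    Tendsto (fun n => ∫ θ in (0:ℝ)..(2 * π), Z n θ) atTop (𝓝 (∫ θ in (0:ℝ)..(2 * π), Z₀ θ)) := by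
  rw [tendsto_iff_norm_sub_tendsto_zero]
  rw [Metric.tendsto_atTop]
  intro ε hε
  have hπ := two_pi_pos
  have h1 : CC (fun n θ => Z n θ - Z₀ θ) (fun _ => 0) := by
    intro θ
    have h2 := (h θ).sub ((CC_fix hZ₀) θ)
    simpa using h2
  have h3 := unifS (G := fun n θ => Z n θ - Z₀ θ) (O := Metric.ball 0 (ε / (4 * π))) Metric.isOpen_ball h1
    (fun θ => Metric.mem_ball_self (by positivity)) (fun n θ => by simp only [p, p₀])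
  obtain ⟨N, hN⟩ := eventually_atTop.mp h3
  refine ⟨N, fun n hn => ?_⟩
  have h4 : ∀ x ∈ uIoc (0:ℝ) (2 * π), ‖Z n x - Z₀ x‖ ≤ ε / (4 * π) := by
    intro x _
    have := hN n hn x
    rw [mem_ball_zero_iff] at this
    exact this.le
  have h5 := intervalIntegral.norm_integral_le_of_norm_le_const h4
  rw [intervalIntegral.integral_sub ((hZ n).intervalIntegrable 0 (2 * π)) (hZ₀.intervalIntegrable 0 (2 * π)),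
    sub_zero, abs_of_pos hπ] at h5
  rw [Real.dist_eq, sub_zero, abs_of_nonneg (norm_nonneg _)]
  refine lt_of_le_of_lt h5 ?_
  have h6 : ε / (4 * π) * (2 * π) = ε / 2 := by
    field_simp
    ring
  rw [h6]
  linarith

/-- one strip, all smallness conditions satisfied (abstract form) -/
lemma oneA (R : ℝ → ℝ) (T U : ℝ → E3) (ν τ ℓ : ℝ → ℝ) (e : E3) {ε m : ℝ} (hm : 0 < m)
    (hrim : ∀ a b c ν τ : ℝ → ℝ, ContDiff ℝ ∞ a → ContDiff ℝ ∞ b → Continuous c → Continuous ν →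
    Continuous τ → (∀ x, a (x + 2 * π) = a x) → (∀ x, b (x + 2 * π) = b x) →
    (∀ x, deriv a x = b x + ν x * c x) → (∀ x, deriv b x = -a x + τ x * c x) → (∀ x, |ν x| ≤ (1 / m) * τ x ^ 2) →
    (∀ x, 1 / 2 ≤ c x) → (∀ x, c x ≤ 1) → (∀ x, |a x| ≤ ε) → (∀ x, |b x| ≤ ε) →
    (∀ x, |iteratedDeriv 2 b x| ≤ ε) → (∀ x, |iteratedDeriv 3 b x| ≤ ε) →
    ∫ x in (0:ℝ)..(2 * π), a x * R x = 0 → ∫ x in (0:ℝ)..(2 * π), a x * cos x = 0 →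
    ∫ x in (0:ℝ)..(2 * π), a x * sin x = 0 →
    0 ≤ ∫ x in (0:ℝ)..(2 * π), ((a x ^ 2 - b x ^ 2) / 2 - ν x * b x) / (1 - a x ^ 2) →
    ∀ x, a x = 0 ∧ b x = 0 ∧ τ x = 0)
    (Rpos : ∀ x, 0 < R x) (sT : ContDiff ℝ ∞ T) (sU : ContDiff ℝ ∞ U) (cν : Continuous ν) (cτ : Continuous τ)
    (pT : ∀ x, T (x + 2 * π) = T x) (pU : ∀ x, U (x + 2 * π) = U x)
    (hon : ∀ x, ‖T x‖ = 1 ∧ ‖U x‖ = 1 ∧ ⟪T x, U x⟫_ℝ = 0)
    (hT : ∀ x, HasDerivAt T (U x + ν x • cr (T x) (U x)) x)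
    (hU : ∀ x, HasDerivAt U (-T x + τ x • cr (T x) (U x)) x)
    (hK : ∀ x, R x * ν x * ℓ x = τ x ^ 2) (nv : ‖e‖ = 1)
    (i1 : ∫ x in (0:ℝ)..(2 * π), ⟪T x, e⟫_ℝ * R x = 0) (i2 : ∫ x in (0:ℝ)..(2 * π), ⟪T x, e⟫_ℝ * cos x = 0)
    (i3 : ∫ x in (0:ℝ)..(2 * π), ⟪T x, e⟫_ℝ * sin x = 0)
    (H0 : ∀ θ, m < R θ * |ℓ θ|)
    (H1 : ∀ θ, ⟪T θ, e⟫_ℝ ∈ Ioo (-(min ε (1 / 2))) (min ε (1 / 2)))
    (H2 : ∀ θ, ⟪U θ, e⟫_ℝ ∈ Ioo (-ε) ε)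
    (H3 : ∀ θ, iteratedDeriv 2 (fun θ => ⟪U θ, e⟫_ℝ) θ ∈ Ioo (-ε) ε)
    (H4 : ∀ θ, iteratedDeriv 3 (fun θ => ⟪U θ, e⟫_ℝ) θ ∈ Ioo (-ε) ε)
    (H5 : ∀ θ, ⟪cr (T θ) (U θ), e⟫_ℝ ∈ Ioi (1 / 2 : ℝ))
    (H7 : ∀ θ, (⟪cr (T θ) (U θ), e⟫_ℝ - ν θ * ⟪U θ, e⟫_ℝ) / (1 - ⟪T θ, e⟫_ℝ ^ 2) ∈ Ioo (1 / 2 : ℝ) (3 / 2))
    (θ : ℝ) : τ θ = 0 := by
  have cT := sT.continuous
  have cU := sU.continuous
  have cN : Continuous (fun θ => cr (T θ) (U θ)) := hCRS.sm.continuous.comp (cT.prodMk cU)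
  obtain ⟨a, ha⟩ : ∃ a : ℝ → ℝ, a = fun θ => ⟪T θ, e⟫_ℝ := ⟨_, rfl⟩
  obtain ⟨b, hb⟩ : ∃ b : ℝ → ℝ, b = fun θ => ⟪U θ, e⟫_ℝ := ⟨_, rfl⟩
  obtain ⟨c, hc⟩ : ∃ c : ℝ → ℝ, c = fun θ => ⟪cr (T θ) (U θ), e⟫_ℝ := ⟨_, rfl⟩
  have a' : ∀ x, ⟪T x, e⟫_ℝ = a x := fun x => by rw [ha]
  have b' : ∀ x, ⟪U x, e⟫_ℝ = b x := fun x => by rw [hb]
  have c' : ∀ x, ⟪cr (T x) (U x), e⟫_ℝ = c x := fun x => by rw [hc]
  have hpar : ∀ x, a x ^ 2 + b x ^ 2 + c x ^ 2 = 1 := by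
    intro x
    obtain ⟨k1, k2, k3⟩ := hon x
    have h := hCRS.par _ _ k1 k2 k3 e
    rw [nv, real_inner_comm (T x), real_inner_comm (U x), real_inner_comm (cr (T x) (U x))] at h
    rw [← a', ← b', ← c', ← h]
    norm_num
  have sa : ContDiff ℝ ∞ a := by rw [ha]; exact sT.inner ℝ contDiff_const
  have sb : ContDiff ℝ ∞ b := by rw [hb]; exact sU.inner ℝ contDiff_const
  have cc : Continuous c := by rw [hc]; exact cN.inner continuous_const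
  have pa : ∀ x, a (x + 2 * π) = a x := fun x => by rw [← a', ← a', pT]
  have pb : ∀ x, b (x + 2 * π) = b x := fun x => by rw [← b', ← b', pU]
  have da : ∀ x, deriv a x = b x + ν x * c x := by
    intro x
    have h1 := (hT x).inner ℝ (hasDerivAt_const x e)
    rw [ha, h1.deriv, inner_zero_right, zero_add, inner_add_left, inner_smul_left, conj_trivial, b', c']
  have db : ∀ x, deriv b x = -a x + τ x * c x := by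
    intro x
    have h1 := (hU x).inner ℝ (hasDerivAt_const x e)
    rw [hb, h1.deriv, inner_zero_right, zero_add, inner_add_left, inner_smul_left, conj_trivial, inner_neg_left,
      a', c']
  have hΛ : ∀ x, |ν x| ≤ (1 / m) * τ x ^ 2 := by
    intro x
    have h1 := hK x
    have h2 := H0 x
    have h3 : |ν x| * (R x * |ℓ x|) = τ x ^ 2 := by
      have h4 : |R x * ν x * ℓ x| = τ x ^ 2 := by rw [h1]; exact abs_of_nonneg (sq_nonneg _)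
      rw [abs_mul, abs_mul, abs_of_pos (Rpos x)] at h4
      rw [← h4]; ring
    have h4 : |ν x| * m ≤ τ x ^ 2 := by
      rw [← h3]
      exact mul_le_mul_of_nonneg_left h2.le (abs_nonneg _)
    rw [one_div, inv_mul_eq_div, le_div_iff₀ hm]
    exact h4
  have H1' : ∀ x, a x ∈ Ioo (-(min ε (1 / 2))) (min ε (1 / 2)) := fun x => by rw [← a' x]; exact H1 x
  have H2' : ∀ x, b x ∈ Ioo (-ε) ε := fun x => by rw [← b' x]; exact H2 x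
  have H3' : ∀ x, iteratedDeriv 2 b x ∈ Ioo (-ε) ε := fun x => by rw [hb]; exact H3 x
  have H4' : ∀ x, iteratedDeriv 3 b x ∈ Ioo (-ε) ε := fun x => by rw [hb]; exact H4 x
  have H5' : ∀ x, 1 / 2 < c x := fun x => by rw [← c' x]; exact H5 x
  have H7' : ∀ x, (c x - ν x * b x) / (1 - a x ^ 2) ∈ Ioo (1 / 2 : ℝ) (3 / 2) := fun x => by
    rw [← c', ← a', ← b']; exact H7 x
  have a2 : ∀ x, a x ^ 2 ≤ 1 / 4 := by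
    intro x
    have h1 := (H1' x).1
    have h2 := (H1' x).2
    have h3 : min ε (1 / 2 : ℝ) ≤ 1 / 2 := min_le_right _ _
    nlinarith
  have i1' : ∫ x in (0:ℝ)..(2 * π), a x * R x = 0 := by rw [ha]; exact i1
  have i2' : ∫ x in (0:ℝ)..(2 * π), a x * cos x = 0 := by rw [ha]; exact i2
  have i3' : ∫ x in (0:ℝ)..(2 * π), a x * sin x = 0 := by rw [ha]; exact i3
  have hn : ∃ n : ℤ, ∫ θ in (0:ℝ)..(2 * π), (c θ - ν θ * b θ) / (1 - a θ ^ 2) = 2 * π * n := by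
    have g2 : T (2 * π) = T 0 := by
      have := pT 0
      rwa [zero_add] at this
    have g3 : ∀ θ, ⟪T θ, e⟫_ℝ ^ 2 < 1 := by
      intro θ
      have := a2 θ
      rw [a']; linarith
    obtain ⟨n, hn⟩ := hWND T U ν e cT cU cν hT g2 hon nv g3
    refine ⟨n, ?_⟩
    rw [← hn]
    apply intervalIntegral.integral_congr
    intro x _
    simp only [← c', ← a', ← b']
  have key := wind sa.continuous sb.continuous cc cν a2 hpar H7' hn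
  have fin := hrim a b c ν τ sa sb cc cν cτ pa pb da db hΛ (fun x => (H5' x).le)
    (fun x => by
      have h1 := c_le (hpar x)
      nlinarith [sq_nonneg (a x), sq_nonneg (b x)])
    (fun x => by
      have h1 := H1' x
      have h3 : min ε (1 / 2 : ℝ) ≤ ε := min_le_left _ _
      exact abs_le.mpr ⟨by linarith [h1.1], by linarith [h1.2]⟩)
    (fun x => abs_le.mpr ⟨(H2' x).1.le, (H2' x).2.le⟩)
    (fun x => abs_le.mpr ⟨(H3' x).1.le, (H3' x).2.le⟩)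
    (fun x => abs_le.mpr ⟨(H4' x).1.le, (H4' x).2.le⟩) i1' i2' i3' key
  exact (fin θ).2.2

section
variable {X Y : ℝ → ℝ → E3} {R : ℝ → ℝ} {u₁ u₂ : E3} (F : Rim X R u₁ u₂)
include F

lemma bT (θ : ℝ) : fT (K3 X) R 0 θ = cos θ • u₁ + sin θ • u₂ := by
  rw [fT, (fam F).tan, smul_smul, inv_mul_cancel₀ (F.Rpos θ).ne', one_smul]

lemma bU (θ : ℝ) : fU (K3 X) 0 θ = -sin θ • u₁ + cos θ • u₂ := F.nor θ

lemma bN (θ : ℝ) : fN (K3 X) R 0 θ = cr u₁ u₂ := GAUM.fN0 (fam F) θ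

lemma bW : vW (K3 X) R 0 = π ^ 2 • cr u₁ u₂ := by
  have h : ∀ θ, fT (K3 X) R 0 θ = cos θ • fT (K3 X) R 0 0 + sin θ • fU (K3 X) 0 0 := by
    intro θ
    rw [bT F, bT F, bU F]
    simp
  rw [W0 h, bT F, bU F]
  simp

lemma nE : ‖cr u₁ u₂‖ = 1 := hCRS.nrm _ _ F.h1 F.h2 F.h12

lemma bWne : vW (K3 X) R 0 ≠ 0 := by
  rw [bW F]
  exact smul_ne_zero (pow_ne_zero _ pi_ne_zero) (norm_ne_zero_iff.mp (by rw [nE F]; norm_num))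

lemma be : ve (K3 X) R 0 = cr u₁ u₂ := by
  rw [ve, bW F, norm_smul, nE F, mul_one, norm_pow, Real.norm_eq_abs, abs_of_pos pi_pos, smul_smul,
    inv_mul_cancel₀ (pow_ne_zero _ pi_ne_zero), one_smul]

lemma Rsm : ContDiff ℝ ∞ R := GAUM.R_sm (fam F) hDRV

lemma Rper (θ : ℝ) : R (θ + 2 * π) = R θ := GAUM.R_per (fam F) θ

omit F in
lemma per_pt2 {V : Type} [NormedAddCommGroup V] [NormedSpace ℝ V] {Y : ℝ → ℝ → V}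
    (h : ∀ t θ, Y t (θ + 2 * π) = Y t θ) (t θ : ℝ) : pt Y t (θ + 2 * π) = pt Y t θ :=
  per_dt (G := K3 Y) (fun _ => h) 0 t θ

omit F in
lemma per_ph2 {V : Type} [NormedAddCommGroup V] [NormedSpace ℝ V] {Y : ℝ → ℝ → V}
    (h : ∀ t θ, Y t (θ + 2 * π) = Y t θ) (t θ : ℝ) : ph Y t (θ + 2 * π) = ph Y t θ :=
  per_dh (G := K3 Y) (fun _ => h) 0 t θ

variable (I : Iso X Y)
include I

lemma sT2 : ContDiff ℝ ∞ (fun θ => fT (K3 Y) R 0 θ) :=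
  ((Rsm F).inv (fun θ => (F.Rpos θ).ne')).smul (sm_sl (hDRV.sdh (K3_sm I.sm)) 0 0)

lemma pT2 (θ : ℝ) : fT (K3 Y) R 0 (θ + 2 * π) = fT (K3 Y) R 0 θ := by
  have h : dh (K3 Y) 0 0 (θ + 2 * π) = dh (K3 Y) 0 0 θ := per_ph2 I.per 0 θ
  rw [fT, fT, Rper F, h]

omit F in
lemma sU2 : ContDiff ℝ ∞ (fun θ => fU (K3 Y) 0 θ) := sm_sl (hDRV.sdt (K3_sm I.sm)) 0 0

omit F in
lemma pU2 (θ : ℝ) : fU (K3 Y) 0 (θ + 2 * π) = fU (K3 Y) 0 θ := per_pt2 I.per 0 θ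

lemma pN2 (θ : ℝ) : fN (K3 Y) R 0 (θ + 2 * π) = fN (K3 Y) R 0 θ := by
  rw [fN, fN, pT2 F I, pU2 I]

lemma cN2 : Continuous (fun θ => fN (K3 Y) R 0 θ) :=
  hCRS.sm.continuous.comp ((sT2 F I).continuous.prodMk (sU2 I).continuous)

lemma cnu2 : Continuous (fun θ => nu (K3 Y) R 0 θ) := by
  have h1 : Continuous (fun θ => (R θ)⁻¹) := (Rsm F).continuous.inv₀ (fun θ => (F.Rpos θ).ne')
  have h2 : Continuous (fun θ => dh (dh (K3 Y)) 0 0 θ) := (sm_sl (hDRV.sdh (hDRV.sdh (K3_sm I.sm))) 0 0).continuous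
  exact h1.mul (h2.inner (cN2 F I))

lemma ctau2 : Continuous (fun θ => tau (K3 Y) R 0 θ) := by
  have h2 : Continuous (fun θ => dh (dt (K3 Y)) 0 0 θ) := (sm_sl (hDRV.sdh (hDRV.sdt (K3_sm I.sm))) 0 0).continuous
  exact h2.inner (cN2 F I)

lemma cell2 : Continuous (fun θ => ell (K3 Y) R 0 θ) := by
  have h2 : Continuous (fun θ => dt (dt (K3 Y)) 0 0 θ) := (sm_sl (hDRV.sdt (hDRV.sdt (K3_sm I.sm))) 0 0).continuous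
  exact h2.inner (cN2 F I)

lemma pnu2 (θ : ℝ) : nu (K3 Y) R 0 (θ + 2 * π) = nu (K3 Y) R 0 θ := by
  have h : dh (dh (K3 Y)) 0 0 (θ + 2 * π) = dh (dh (K3 Y)) 0 0 θ := per_ph2 (per_ph2 I.per) 0 θ
  rw [nu, nu, Rper F, pN2 F I, h]

lemma pell2 (θ : ℝ) : ell (K3 Y) R 0 (θ + 2 * π) = ell (K3 Y) R 0 θ := by
  have h : dt (dt (K3 Y)) 0 0 (θ + 2 * π) = dt (dt (K3 Y)) 0 0 θ := per_pt2 (per_pt2 I.per) 0 θ
  rw [ell, ell, pN2 F I, h]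

lemma acos2 : ∫ x in (0:ℝ)..(2 * π), ⟪fT (K3 Y) R 0 x, ve (K3 Y) R 0⟫_ℝ * cos x = 0 := by
  have h := int_inner (f := fun x => cos x • fT (K3 Y) R 0 x) (continuous_cos.smul (sT2 F I).continuous)
    (ve (K3 Y) R 0) 0 (2 * π)
  have h2 : ⟪∫ x in (0:ℝ)..(2 * π), cos x • fT (K3 Y) R 0 x, ve (K3 Y) R 0⟫_ℝ = 0 := eP hCRS 0
  refine Eq.trans ?_ (h.trans h2)
  congr 1
  funext x
  rw [inner_smul_left, conj_trivial, mul_comm]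

lemma asin2 : ∫ x in (0:ℝ)..(2 * π), ⟪fT (K3 Y) R 0 x, ve (K3 Y) R 0⟫_ℝ * sin x = 0 := by
  have h := int_inner (f := fun x => sin x • fT (K3 Y) R 0 x) (continuous_sin.smul (sT2 F I).continuous)
    (ve (K3 Y) R 0) 0 (2 * π)
  have h2 : ⟪∫ x in (0:ℝ)..(2 * π), sin x • fT (K3 Y) R 0 x, ve (K3 Y) R 0⟫_ℝ = 0 := eQ hCRS 0
  refine Eq.trans ?_ (h.trans h2)
  congr 1
  funext x
  rw [inner_smul_left, conj_trivial, mul_comm]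

lemma aR2 (v : E3) : ∫ x in (0:ℝ)..(2 * π), ⟪fT (K3 Y) R 0 x, v⟫_ℝ * R x = 0 := by
  have h : ∀ x ∈ uIcc (0:ℝ) (2 * π), HasDerivAt (fun θ => ⟪Y 0 θ, v⟫_ℝ) (⟪fT (K3 Y) R 0 x, v⟫_ℝ * R x) x := by
    intro x _
    have h1 := (h_ph I.sm 0 x).inner ℝ (hasDerivAt_const x v)
    refine h1.congr_deriv ?_
    have e1 : fT (K3 Y) R 0 x = (R x)⁻¹ • ph Y 0 x := rfl
    rw [inner_zero_right, zero_add, e1, inner_smul_left, conj_trivial, mul_comm, ← mul_assoc,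
      mul_inv_cancel₀ (F.Rpos x).ne', one_mul]
  rw [intervalIntegral.integral_eq_sub_of_hasDerivAt h]
  · have := I.per 0 0
    rw [zero_add] at this
    rw [this, sub_self]
  · apply Continuous.intervalIntegrable
    exact ((sT2 F I).continuous.inner continuous_const).mul (Rsm F).continuous

end

/-- a sequence of isometric strips which converges along the rim keeps the rim -/
theorem seqT {X : ℝ → ℝ → E3} {R : ℝ → ℝ} {u₁ u₂ : E3} (F : Rim X R u₁ u₂) (Y : ℕ → ℝ → ℝ → E3)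
    (I : ∀ n, Iso X (Y n))
    (c1 : ∀ n θ, ‖ph (Y n) 0 θ - ph X 0 θ‖ ≤ 1 / ((n:ℝ) + 1))
    (c2 : ∀ n θ, ‖ph (ph (Y n)) 0 θ - ph (ph X) 0 θ‖ ≤ 1 / ((n:ℝ) + 1))
    (c3 : ∀ n θ, ‖pt (Y n) 0 θ - pt X 0 θ‖ ≤ 1 / ((n:ℝ) + 1))
    (c5 : ∀ n θ, ‖ph (ph (pt (Y n))) 0 θ - ph (ph (pt X)) 0 θ‖ ≤ 1 / ((n:ℝ) + 1))
    (c6 : ∀ n θ, ‖ph (ph (ph (pt (Y n)))) 0 θ - ph (ph (ph (pt X))) 0 θ‖ ≤ 1 / ((n:ℝ) + 1))
    (c7 : ∀ n θ, ‖pt (pt (Y n)) 0 θ - pt (pt X) 0 θ‖ ≤ 1 / ((n:ℝ) + 1)) :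
    ∀ᶠ n in atTop, ∀ θ, tau (K3 (Y n)) R 0 θ = 0 ∧ 0 < ell (K3 (Y n)) R 0 θ * ell (K3 X) R 0 θ := by
  have IX : Iso X X := ⟨F.sm, F.per, fun _ _ => rfl, fun _ _ => rfl, fun _ _ => rfl⟩
  have cRi : CC (fun (_ : ℕ) θ => (R θ)⁻¹) (fun θ => (R θ)⁻¹) :=
    CC_fix ((Rsm F).continuous.inv₀ (fun θ => (F.Rpos θ).ne'))
  have ccR : CC (fun (_ : ℕ) θ => R θ) (fun θ => R θ) := CC_fix (Rsm F).continuous
  have sl : ∀ {G : ℝ → ℝ → E3}, S2 G → Continuous (fun θ => G 0 θ) := fun h => (sm_sl (K3_sm h) 0 0).continuous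
  have C1 : CC (fun n θ => ph (Y n) 0 θ) (fun θ => ph X 0 θ) := CC_of (sl (S2_ph F.sm)) c1
  have C2 : CC (fun n θ => ph (ph (Y n)) 0 θ) (fun θ => ph (ph X) 0 θ) := CC_of (sl (S2_ph (S2_ph F.sm))) c2
  have C3 : CC (fun n θ => pt (Y n) 0 θ) (fun θ => pt X 0 θ) := CC_of (sl (S2_pt F.sm)) c3
  have C5 : CC (fun n θ => ph (ph (pt (Y n))) 0 θ) (fun θ => ph (ph (pt X)) 0 θ) :=
    CC_of (sl (S2_ph (S2_ph (S2_pt F.sm)))) c5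
  have C6 : CC (fun n θ => ph (ph (ph (pt (Y n)))) 0 θ) (fun θ => ph (ph (ph (pt X))) 0 θ) :=
    CC_of (sl (S2_ph (S2_ph (S2_ph (S2_pt F.sm))))) c6
  have C7 : CC (fun n θ => pt (pt (Y n)) 0 θ) (fun θ => pt (pt X) 0 θ) := CC_of (sl (S2_pt (S2_pt F.sm))) c7
  have CT : CC (fun n θ => fT (K3 (Y n)) R 0 θ) (fun θ => fT (K3 X) R 0 θ) := cRi.smul C1
  have CU : CC (fun n θ => fU (K3 (Y n)) 0 θ) (fun θ => fU (K3 X) 0 θ) := C3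
  have CN : CC (fun n θ => fN (K3 (Y n)) R 0 θ) (fun θ => fN (K3 X) R 0 θ) := CT.cr CU
  have Cnu : CC (fun n θ => nu (K3 (Y n)) R 0 θ) (fun θ => nu (K3 X) R 0 θ) := cRi.mul (C2.inner CN)
  have Cell : CC (fun n θ => ell (K3 (Y n)) R 0 θ) (fun θ => ell (K3 X) R 0 θ) := C7.inner CN
  -- the direction
  have cosp : ∀ x : ℝ, cos (x + 2 * π) = cos x := cos_add_two_pi
  have sinp : ∀ x : ℝ, sin (x + 2 * π) = sin x := sin_add_two_pi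
  have LP : Tendsto (fun n => vP (K3 (Y n)) R 0) atTop (𝓝 (vP (K3 X) R 0)) := by
    have h1 : CC (fun n θ => cos θ • fT (K3 (Y n)) R 0 θ) (fun θ => cos θ • fT (K3 X) R 0 θ) :=
      (CC_fix continuous_cos).smul CT
    exact int_conv h1 (fun n => continuous_cos.smul (sT2 F (I n)).continuous)
      (continuous_cos.smul (sT2 F IX).continuous) (fun n θ => by simp only [cosp, pT2 F (I n)])
      (fun θ => by simp only [cosp, pT2 F IX])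
  have LQ : Tendsto (fun n => vQ (K3 (Y n)) R 0) atTop (𝓝 (vQ (K3 X) R 0)) := by
    have h1 : CC (fun n θ => sin θ • fT (K3 (Y n)) R 0 θ) (fun θ => sin θ • fT (K3 X) R 0 θ) :=
      (CC_fix continuous_sin).smul CT
    exact int_conv h1 (fun n => continuous_sin.smul (sT2 F (I n)).continuous)
      (continuous_sin.smul (sT2 F IX).continuous) (fun n θ => by simp only [sinp, pT2 F (I n)])
      (fun θ => by simp only [sinp, pT2 F IX])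
  have LW : Tendsto (fun n => vW (K3 (Y n)) R 0) atTop (𝓝 (vW (K3 X) R 0)) := by
    unfold vW
    exact tend_cr LP LQ
  have Le : Tendsto (fun n => ve (K3 (Y n)) R 0) atTop (𝓝 (ve (K3 X) R 0)) :=
    (LW.norm.inv₀ (norm_ne_zero_iff.mpr (bWne F))).smul LW
  have Ce : CC (fun n _ => ve (K3 (Y n)) R 0) (fun _ => ve (K3 X) R 0) := CC_seq Le
  have Ca := CT.inner Ce
  have Cb := CU.inner Ce
  have Cc := CN.inner Ce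
  have Cb2 := C5.inner Ce
  have Cb3 := C6.inner Ce
  have e0 := be F
  have a0 : ∀ θ, ⟪fT (K3 X) R 0 θ, ve (K3 X) R 0⟫_ℝ = 0 := by
    intro θ; rw [e0, ← bN F θ, real_inner_comm]; exact hCRS.o1 _ _
  have b0 : ∀ θ, ⟪fU (K3 X) 0 θ, ve (K3 X) R 0⟫_ℝ = 0 := by
    intro θ; rw [e0, ← bN F θ, real_inner_comm]; exact hCRS.o2 _ _
  have c0 : ∀ θ, ⟪fN (K3 X) R 0 θ, ve (K3 X) R 0⟫_ℝ = 1 := by
    intro θ; rw [e0, bN F θ, real_inner_self_eq_norm_sq, nE F]; norm_num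
  have bk0 : ∀ (k : ℕ) (θ : ℝ), ⟪(dh^[k] (dt (K3 X))) 0 0 θ, ve (K3 X) R 0⟫_ℝ = 0 := by
    intro k θ
    have h1 := congrFun (itb hDRV (hDRV.sdt (K3_sm F.sm)) (ve (K3 X) R 0) 0 0 k) θ
    rw [← h1]
    have h2 : (fun θ => ⟪dt (K3 X) 0 0 θ, ve (K3 X) R 0⟫_ℝ) = fun _ => 0 := funext b0
    rw [h2]
    simp
  have ell0 : ∀ θ, ell (K3 X) R 0 θ ≠ 0 := fun θ => (hGAU.base (fam F) θ).2.2
  have pX := pell2 F IX
  -- lower bound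
  obtain ⟨m, hm, hm2⟩ : ∃ m : ℝ, 0 < m ∧ ∀ᶠ n in atTop, ∀ θ, m < R θ * |ell (K3 (Y n)) R 0 θ| := by
    have hcont : Continuous (fun θ => R θ * |ell (K3 X) R 0 θ|) := (Rsm F).continuous.mul (cell2 F IX).abs
    obtain ⟨x, hx, hx2⟩ := isCompact_Icc.exists_isMinOn (⟨0, by simp [pi_pos.le]⟩ : (Icc (0:ℝ) (2 * π)).Nonempty)
      hcont.continuousOn
    have hm0p : 0 < R x * |ell (K3 X) R 0 x| := mul_pos (F.Rpos x) (abs_pos.mpr (ell0 x))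
    refine ⟨(R x * |ell (K3 X) R 0 x|) / 2, by positivity, ?_⟩
    refine unifS (G := fun n θ => R θ * |ell (K3 (Y n)) R 0 θ|) (O := Ioi ((R x * |ell (K3 X) R 0 x|) / 2))
      isOpen_Ioi (ccR.mul Cell.abs) ?_ ?_
    · intro θ
      have hp : Function.Periodic (fun θ => R θ * |ell (K3 X) R 0 θ|) (2 * π) := by
        intro y; simp only [Rper F, pX]
      obtain ⟨y, hy, hy2⟩ := hp.exists_mem_Ico₀ two_pi_pos θ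
      have h3 : R x * |ell (K3 X) R 0 x| ≤ R y * |ell (K3 X) R 0 y| := hx2 ⟨hy.1, hy.2.le⟩
      simp only [mem_Ioi]
      have h4 : R θ * |ell (K3 X) R 0 θ| = R y * |ell (K3 X) R 0 y| := hy2
      rw [h4]
      linarith
    · intro n θ
      simp only [Rper F, pell2 F (I n)]
  obtain ⟨R1, R2, R3, R4⟩ := hGAU.R (fam F)
  obtain ⟨ε, hε, hrim⟩ := hRMP R R1.continuous R2 F.Rpos R3 R4 (1 / m) (by positivity)
  have ev1 : ∀ᶠ n in atTop, ∀ θ, ⟪fT (K3 (Y n)) R 0 θ, ve (K3 (Y n)) R 0⟫_ℝ ∈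
      Ioo (-(min ε (1 / 2))) (min ε (1 / 2)) := by
    refine unifS (G := fun n θ => ⟪fT (K3 (Y n)) R 0 θ, ve (K3 (Y n)) R 0⟫_ℝ)
      (O := Ioo (-(min ε (1 / 2))) (min ε (1 / 2))) isOpen_Ioo Ca ?_ ?_
    · intro θ; rw [a0]; constructor <;> simp [hε]
    · intro n θ; simp only [pT2 F (I n)]
  have ev2 : ∀ᶠ n in atTop, ∀ θ, ⟪fU (K3 (Y n)) 0 θ, ve (K3 (Y n)) R 0⟫_ℝ ∈ Ioo (-ε) ε := by
    refine unifS (G := fun n θ => ⟪fU (K3 (Y n)) 0 θ, ve (K3 (Y n)) R 0⟫_ℝ)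
      (O := Ioo (-ε) ε) isOpen_Ioo Cb ?_ ?_
    · intro θ; rw [b0]; constructor <;> simp [hε]
    · intro n θ; simp only [pU2 (I n)]
  have ev3 : ∀ᶠ n in atTop, ∀ θ, ⟪ph (ph (pt (Y n))) 0 θ, ve (K3 (Y n)) R 0⟫_ℝ ∈ Ioo (-ε) ε := by
    refine unifS (G := fun n θ => ⟪ph (ph (pt (Y n))) 0 θ, ve (K3 (Y n)) R 0⟫_ℝ)
      (O := Ioo (-ε) ε) isOpen_Ioo Cb2 ?_ ?_
    · intro θ
      have h : ⟪ph (ph (pt X)) 0 θ, ve (K3 X) R 0⟫_ℝ = 0 := bk0 2 θ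
      rw [h]; constructor <;> simp [hε]
    · intro n θ; simp only [per_ph2 (per_ph2 (per_pt2 (I n).per))]
  have ev4 : ∀ᶠ n in atTop, ∀ θ, ⟪ph (ph (ph (pt (Y n)))) 0 θ, ve (K3 (Y n)) R 0⟫_ℝ ∈ Ioo (-ε) ε := by
    refine unifS (G := fun n θ => ⟪ph (ph (ph (pt (Y n)))) 0 θ, ve (K3 (Y n)) R 0⟫_ℝ)
      (O := Ioo (-ε) ε) isOpen_Ioo Cb3 ?_ ?_
    · intro θ
      have h : ⟪ph (ph (ph (pt X))) 0 θ, ve (K3 X) R 0⟫_ℝ = 0 := bk0 3 θ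
      rw [h]; constructor <;> simp [hε]
    · intro n θ; simp only [per_ph2 (per_ph2 (per_ph2 (per_pt2 (I n).per)))]
  have ev5 : ∀ᶠ n in atTop, ∀ θ, ⟪fN (K3 (Y n)) R 0 θ, ve (K3 (Y n)) R 0⟫_ℝ ∈ Ioi (1 / 2 : ℝ) := by
    refine unifS (G := fun n θ => ⟪fN (K3 (Y n)) R 0 θ, ve (K3 (Y n)) R 0⟫_ℝ) (O := Ioi (1 / 2 : ℝ)) isOpen_Ioi
      Cc ?_ ?_
    · intro θ; rw [c0]; simp only [mem_Ioi]; norm_num
    · intro n θ; simp only [pN2 F (I n)]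
  have ev6 : ∀ᶠ n in atTop, vW (K3 (Y n)) R 0 ≠ 0 := LW.eventually_ne (bWne F)
  have ev7 : ∀ᶠ n in atTop, ∀ θ, (⟪fN (K3 (Y n)) R 0 θ, ve (K3 (Y n)) R 0⟫_ℝ -
      nu (K3 (Y n)) R 0 θ * ⟪fU (K3 (Y n)) 0 θ, ve (K3 (Y n)) R 0⟫_ℝ) /
      (1 - ⟪fT (K3 (Y n)) R 0 θ, ve (K3 (Y n)) R 0⟫_ℝ ^ 2) ∈ Ioo (1 / 2 : ℝ) (3 / 2) := by
    have h1 : CC (fun (_ : ℕ) (_ : ℝ) => (1:ℝ)) (fun _ => 1) := CC_fix continuous_const
    have h2 := (Cc.sub (Cnu.mul Cb)).div (h1.sub (Ca.mul Ca)) (fun θ => by simp only [a0]; norm_num)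
    have h3 : CC (fun n θ => (⟪fN (K3 (Y n)) R 0 θ, ve (K3 (Y n)) R 0⟫_ℝ -
      nu (K3 (Y n)) R 0 θ * ⟪fU (K3 (Y n)) 0 θ, ve (K3 (Y n)) R 0⟫_ℝ) /
      (1 - ⟪fT (K3 (Y n)) R 0 θ, ve (K3 (Y n)) R 0⟫_ℝ ^ 2)) (fun θ => (⟪fN (K3 X) R 0 θ, ve (K3 X) R 0⟫_ℝ -
      nu (K3 X) R 0 θ * ⟪fU (K3 X) 0 θ, ve (K3 X) R 0⟫_ℝ) /
      (1 - ⟪fT (K3 X) R 0 θ, ve (K3 X) R 0⟫_ℝ ^ 2)) := by
      simp only [sq]
      exact h2
    refine unifS (G := fun n θ => (⟪fN (K3 (Y n)) R 0 θ, ve (K3 (Y n)) R 0⟫_ℝ -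
      nu (K3 (Y n)) R 0 θ * ⟪fU (K3 (Y n)) 0 θ, ve (K3 (Y n)) R 0⟫_ℝ) /
      (1 - ⟪fT (K3 (Y n)) R 0 θ, ve (K3 (Y n)) R 0⟫_ℝ ^ 2)) (O := Ioo (1 / 2 : ℝ) (3 / 2)) isOpen_Ioo h3 ?_ ?_
    · intro θ
      rw [a0, b0, c0]; constructor <;> norm_num
    · intro n θ; simp only [pT2 F (I n), pU2 (I n), pN2 F (I n), pnu2 F (I n)]
  have ev8 : ∀ᶠ n in atTop, ∀ θ, ell (K3 (Y n)) R 0 θ * ell (K3 X) R 0 θ ∈ Ioi (0:ℝ) := by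
    refine unifS (G := fun n θ => ell (K3 (Y n)) R 0 θ * ell (K3 X) R 0 θ) (O := Ioi (0:ℝ)) isOpen_Ioi
      (Cell.mul (CC_fix (cell2 F IX))) ?_ ?_
    · intro θ
      exact mul_self_pos.mpr (ell0 θ)
    · intro n θ; simp only [pell2 F (I n), pX]
  filter_upwards [hm2, ev1, ev2, ev3, ev4, ev5, ev6, ev7, ev8] with n H0 H1 H2 H3 H4 H5 H6 H7 H8 θ
  refine ⟨?_, H8 θ⟩
  have hb2 := itb hDRV (hDRV.sdt (K3_sm (I n).sm)) (ve (K3 (Y n)) R 0) 0 0 2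
  have hb3 := itb hDRV (hDRV.sdt (K3_sm (I n).sm)) (ve (K3 (Y n)) R 0) 0 0 3
  exact oneA R (fun θ => fT (K3 (Y n)) R 0 θ) (fun θ => fU (K3 (Y n)) 0 θ) (fun θ => nu (K3 (Y n)) R 0 θ)
    (fun θ => tau (K3 (Y n)) R 0 θ) (fun θ => ell (K3 (Y n)) R 0 θ) (ve (K3 (Y n)) R 0) hm hrim F.Rpos
    (sT2 F (I n)) (sU2 (I n)) (cnu2 F (I n)) (ctau2 F (I n)) (pT2 F (I n)) (pU2 (I n)) (on2 F (I n))
    (T2' F (I n)) (U2' F (I n)) (Kr F (I n)) (ne H6) (aR2 F (I n) _) (acos2 F (I n)) (asin2 F (I n)) H0 H1 H2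
    (fun x => by
      have e1 := congrFun hb2 x
      have e2 : iteratedDeriv 2 (fun θ => ⟪fU (K3 (Y n)) 0 θ, ve (K3 (Y n)) R 0⟫_ℝ) x =
        ⟪ph (ph (pt (Y n))) 0 x, ve (K3 (Y n)) R 0⟫_ℝ := e1
      rw [e2]; exact H3 x)
    (fun x => by
      have e1 := congrFun hb3 x
      have e2 : iteratedDeriv 3 (fun θ => ⟪fU (K3 (Y n)) 0 θ, ve (K3 (Y n)) R 0⟫_ℝ) x =
        ⟪ph (ph (ph (pt (Y n)))) 0 x, ve (K3 (Y n)) R 0⟫_ℝ := e1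
      rw [e2]; exact H4 x)
    H5 H7 θ

end SEQM

end Rim478
end

section
set_option autoImplicit false

/-!
MP_478c11_gt (helper9): the isolated form of the rim theorem, part 3: a strip isometric to `X` and close to `X` along the rim agrees with `X` to infinite order along the rim, up to a motion.
-/

open Real MeasureTheory Set Filter Topology
open scoped ContDiff InnerProductSpace

namespace Rim478

/-- `ε`-close along `t = 0` (six partial derivatives of order at most four) -/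
def Cl (ε : ℝ) (X Y : ℝ → ℝ → E3) : Prop := ∀ θ,
  ‖ph Y 0 θ - ph X 0 θ‖ ≤ ε ∧ ‖ph (ph Y) 0 θ - ph (ph X) 0 θ‖ ≤ ε ∧ ‖pt Y 0 θ - pt X 0 θ‖ ≤ ε ∧
  ‖ph (ph (pt Y)) 0 θ - ph (ph (pt X)) 0 θ‖ ≤ ε ∧ ‖ph (ph (ph (pt Y))) 0 θ - ph (ph (ph (pt X))) 0 θ‖ ≤ ε ∧
  ‖pt (pt Y) 0 θ - pt (pt X) 0 θ‖ ≤ ε

namespace ISOM

open OPNM PAIM SEQM CLPM

section
variable {X Y : ℝ → ℝ → E3} {R : ℝ → ℝ} {u₁ u₂ : E3} (F : Rim X R u₁ u₂) (I : Iso X Y)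
include F I

lemma mov2 (hτ : ∀ θ, tau (K3 Y) R 0 θ = 0) (hℓ : ∀ θ, ell (K3 Y) R 0 θ ≠ 0) :
    ∃ (g : E3 ≃ₗᵢ[ℝ] E3) (b : E3), (∀ x y, cr (g x) (g y) = g (cr x y)) ∧ (∀ θ, g (Y 0 θ) + b = X 0 θ) ∧
      (∀ θ, g (pt Y 0 θ) = pt X 0 θ) ∧ ∀ θ, g (fN (K3 Y) R 0 θ) = cr u₁ u₂ := by
  have hν : ∀ θ, nu (K3 Y) R 0 θ = 0 := by
    intro θ
    have h := Kr F I θ
    rw [hτ θ] at h
    have hR := (F.Rpos θ).ne'
    have h2 : R θ * nu (K3 Y) R 0 θ = 0 := by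
      rcases mul_eq_zero.mp (show R θ * nu (K3 Y) R 0 θ * ell (K3 Y) R 0 θ = 0 by rw [h]; norm_num) with h3 | h3
      · exact h3
      · exact absurd h3 (hℓ θ)
    rcases mul_eq_zero.mp h2 with h3 | h3
    · exact absurd h3 hR
    · exact h3
  have hT : ∀ θ, HasDerivAt (fun s => fT (K3 Y) R 0 s) (fU (K3 Y) 0 θ) θ := by
    intro θ
    have := T2' F I θ
    rwa [hν θ, zero_smul, add_zero] at this
  have hU : ∀ θ, HasDerivAt (fun s => fU (K3 Y) 0 s) (-fT (K3 Y) R 0 θ) θ := by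
    intro θ
    have := U2' F I θ
    rwa [hτ θ, zero_smul, add_zero] at this
  have hc := MOVM.circ hT hU
  obtain ⟨n1, n2, n3⟩ := on2 F I 0
  obtain ⟨g, g1, g2, g3⟩ := hCRS.mot _ _ _ _ n1 n2 n3 F.h1 F.h2 F.h12
  have gT : ∀ θ, g (fT (K3 Y) R 0 θ) = cos θ • u₁ + sin θ • u₂ := by
    intro θ
    rw [(hc θ).1, map_add, map_smul, map_smul, g1, g2]
  have gU : ∀ θ, g (fU (K3 Y) 0 θ) = -sin θ • u₁ + cos θ • u₂ := by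
    intro θ
    rw [(hc θ).2, map_add, map_smul, map_smul, g1, g2]
  have gX : ∀ θ, HasDerivAt (fun s => g (Y 0 s) - X 0 s) 0 θ := by
    intro θ
    have h1 := h_ph I.sm 0 θ
    have h2 := h_ph F.sm 0 θ
    have h3 : HasDerivAt (fun s => g (Y 0 s)) (g (ph Y 0 θ)) θ :=
      (g.toContinuousLinearEquiv.toContinuousLinearMap.hasFDerivAt).comp_hasDerivAt θ h1
    refine (h3.sub h2).congr_deriv ?_
    have hR := F.Rpos θ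
    have h4 : ph Y 0 θ = R θ • fT (K3 Y) R 0 θ := by
      have e1 : fT (K3 Y) R 0 θ = (R θ)⁻¹ • ph Y 0 θ := rfl
      rw [e1, smul_smul, mul_inv_cancel₀ hR.ne', one_smul]
    rw [h4, map_smul, gT, F.tan, sub_self]
  have g6 : cr (g (fT (K3 Y) R 0 0)) (g (fU (K3 Y) 0 0)) = g (cr (fT (K3 Y) R 0 0) (fU (K3 Y) 0 0)) := by
    rw [g3, g1, g2]
  refine ⟨g, X 0 0 - g (Y 0 0), or_pres hCRS g n1 n2 n3 g6, ?_, ?_, ?_⟩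
  · intro θ
    have := is_const_of_deriv_eq_zero (fun x => (gX x).differentiableAt) (fun x => (gX x).deriv) θ 0
    have h5 : g (Y 0 θ) - X 0 θ = g (Y 0 0) - X 0 0 := this
    rw [← sub_eq_zero]
    calc g (Y 0 θ) + (X 0 0 - g (Y 0 0)) - X 0 θ
        = (g (Y 0 θ) - X 0 θ) - (g (Y 0 0) - X 0 0) := by abel
      _ = 0 := by rw [h5, sub_self]
  · intro θ
    rw [F.nor, ← gU θ]
    rfl
  · intro θ
    have hcs := cos_sq_add_sin_sq θ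
    rw [fN, (hc θ).1, (hc θ).2, MOVM.cr_comb, show cos θ * cos θ - sin θ * -sin θ = 1 by linear_combination hcs,
      one_smul, g3]

lemma pairEnd (hτ : ∀ θ, tau (K3 Y) R 0 θ = 0) (hℓ : ∀ θ, 0 < ell (K3 Y) R 0 θ * ell (K3 X) R 0 θ) :
    ∃ (g : E3 ≃ₗᵢ[ℝ] E3) (b : E3), (∀ x y, cr (g x) (g y) = g (cr x y)) ∧
      ∀ (k : ℕ) (θ : ℝ), (pt^[k] (fun t θ => g (Y t θ) + b)) 0 θ = (pt^[k] X) 0 θ := by
  have hℓ' : ∀ θ, ell (K3 Y) R 0 θ ≠ 0 := by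
    intro θ h
    have := hℓ θ
    rw [h, zero_mul] at this
    exact lt_irrefl _ this
  have hℓX : ∀ θ, ell (K3 X) R 0 θ ≠ 0 := by
    intro θ h
    have := hℓ θ
    rw [h, mul_zero] at this
    exact lt_irrefl _ this
  obtain ⟨g, b, g0, g1, g2, g3⟩ := mov2 F I hτ hℓ'
  refine ⟨g, b, g0, ?_⟩
  have sY := K3_sm I.sm
  have sX := K3_sm F.sm
  have sW := sm_g g b sY
  have m1 : ∀ t θ, ⟪dh (fun α t θ => g (K3 Y α t θ) + b) 0 t θ, dh (fun α t θ => g (K3 Y α t θ) + b) 0 t θ⟫_ℝ =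
      ⟪dh (K3 X) 0 t θ, dh (K3 X) 0 t θ⟫_ℝ := by
    intro t θ
    rw [dh_g hDRV g b sY]
    simp only [g.inner_map_map]
    exact I.gE t θ
  have m2 : ∀ t θ, ⟪dt (fun α t θ => g (K3 Y α t θ) + b) 0 t θ, dh (fun α t θ => g (K3 Y α t θ) + b) 0 t θ⟫_ℝ =
      ⟪dt (K3 X) 0 t θ, dh (K3 X) 0 t θ⟫_ℝ := by
    intro t θ
    rw [dh_g hDRV g b sY, dt_g hDRV g b sY]
    simp only [g.inner_map_map]
    exact I.gF t θ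
  have m3 : ∀ t θ, ⟪dt (fun α t θ => g (K3 Y α t θ) + b) 0 t θ, dt (fun α t θ => g (K3 Y α t θ) + b) 0 t θ⟫_ℝ =
      ⟪dt (K3 X) 0 t θ, dt (K3 X) 0 t θ⟫_ℝ := by
    intro t θ
    rw [dt_g hDRV g b sY]
    simp only [g.inner_map_map]
    exact I.gG t θ
  have dd : ∀ θ, dt (dt (fun α t θ => g (K3 Y α t θ) + b)) 0 0 θ = g (dt (dt (K3 Y)) 0 0 θ) := by
    intro θ
    rw [dt_g hDRV g b sY, dt_g0 hDRV g (hDRV.sdt sY)]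
  have eY : ∀ θ, ⟪g (dt (dt (K3 Y)) 0 0 θ), cr u₁ u₂⟫_ℝ = ell (K3 Y) R 0 θ := by
    intro θ
    rw [← g3 θ, g.inner_map_map]
    rfl
  have eX : ∀ θ, ⟪dt (dt (K3 X)) 0 0 θ, cr u₁ u₂⟫_ℝ = ell (K3 X) R 0 θ := by
    intro θ
    rw [ell, bN F]
  have g2' : ∀ θ, dt (fun α t θ => g (K3 Y α t θ) + b) 0 0 θ = dt (K3 X) 0 0 θ := by
    intro θ
    rw [dt_g hDRV g b sY]
    exact g2 θ
  have jt := hJET.two (X := K3 X) (Y := fun α t θ => g (K3 Y α t θ) + b) (R := R) (u₁ := u₁)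
    (u₂ := u₂) (α := 0) sX sW F.h1 F.h2 F.h12 F.Rpos m1 m2 m3 F.tan F.nor g1 g2'
  have hE : ∀ θ, ell (K3 Y) R 0 θ = ell (K3 X) R 0 θ := by
    intro θ
    have j1 := jt θ
    rw [dd θ, eY θ, eX θ] at j1
    rcases j1 with j1 | j1
    · exact j1
    · have := hℓ θ
      rw [j1] at this
      have h5 := mul_self_pos.mpr (hℓX θ)
      nlinarith
  have ja := hJET.all (X := K3 X) (Y := fun α t θ => g (K3 Y α t θ) + b) (R := R) (u₁ := u₁)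
    (u₂ := u₂) (α := 0) sX sW F.h1 F.h2 F.h12 F.Rpos m1 m2 m3 F.tan F.nor g1 g2'
    (fun θ => by rw [eX θ]; exact hℓX θ) (fun θ => by rw [dd θ, eY θ, eX θ]; exact hE θ)
  intro k θ
  have h1 := ja k θ
  have h2 := dt_it (fun t θ => g (Y t θ) + b) k
  have h3 := dt_it X k
  have h4 : (dt^[k] (K3 (fun t θ => g (Y t θ) + b))) 0 0 θ = (dt^[k] (K3 X)) 0 0 θ := h1
  rw [h2, h3] at h4
  exact h4

end

end ISOM

open ISOM SEQM PAIM in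
/-- **the isolated form of the rim theorem** -/
theorem iso {X : ℝ → ℝ → E3} {R : ℝ → ℝ} {u₁ u₂ : E3} (F : Rim X R u₁ u₂) : ∃ ε : ℝ, 0 < ε ∧
    ∀ Y : ℝ → ℝ → E3, Iso X Y → Cl ε X Y → ∃ (g : E3 ≃ₗᵢ[ℝ] E3) (b : E3), (∀ x y, cr (g x) (g y) = g (cr x y)) ∧
      ∀ (k : ℕ) (θ : ℝ), (pt^[k] (fun t θ => g (Y t θ) + b)) 0 θ = (pt^[k] X) 0 θ := by
  by_contra hcon
  push Not at hcon
  have h1 : ∀ n : ℕ, ∃ Y : ℝ → ℝ → E3, Iso X Y ∧ Cl (1 / ((n:ℝ) + 1)) X Y ∧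
      ¬ ∃ (g : E3 ≃ₗᵢ[ℝ] E3) (b : E3), (∀ x y, cr (g x) (g y) = g (cr x y)) ∧
      ∀ (k : ℕ) (θ : ℝ), (pt^[k] (fun t θ => g (Y t θ) + b)) 0 θ = (pt^[k] X) 0 θ := by
    intro n
    obtain ⟨Y, hY1, hY2, hY3⟩ := hcon (1 / ((n:ℝ) + 1)) (by positivity)
    refine ⟨Y, hY1, hY2, ?_⟩
    rintro ⟨g, b, h2, h3⟩
    obtain ⟨k, θ, h4⟩ := hY3 g b h2
    exact h4 (h3 k θ)
  choose Y I C N using h1
  have h2 := seqT F Y I (fun n θ => (C n θ).1) (fun n θ => (C n θ).2.1) (fun n θ => (C n θ).2.2.1)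
    (fun n θ => (C n θ).2.2.2.1) (fun n θ => (C n θ).2.2.2.2.1) (fun n θ => (C n θ).2.2.2.2.2)
  obtain ⟨n, hn⟩ := h2.exists
  exact N n (pairEnd F (I n) (fun θ => (hn θ).1) (fun θ => (hn θ).2))

end Rim478
end
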